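import Mathlib

/-!
Project EHN (MP_48f148_nt, counting EHS numbers), helper44. Row XXX = def XXXStmt : Prop.

Idea.  `n` odd, `p ∣ n! + 1` prime, `p ≠ 2 n + 1`, `n` not EHS: then `p ≡ 1 (mod n)` and
`m = p - 1 - n` is an odd EHS number, `n ∣ m` (Wilson).  For `n = D q` (`q` prime, `2 D q + 1` not
prime) either some such `m` is smaller than `Y`, and then `q ∣ m`, so one `m` serves few `q`; or
`n! + 1 = ∏ (m + 1 + n) ^ e m` with all `m ≥ Y`.  If there are few `m`, two different products of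
`L` numbers `n! + 1` from a short interval have the same exponents, so their quotient is very close
to `1`; but it is close to a quotient of two different small integers.
-/

set_option autoImplicit false

open Classical

namespace EHN

/-- EHS number (for `n ≥ 1`) -/
def EHS (n : ℕ) : Prop := ∃ p : ℕ, p.Prime ∧ p ∣ n.factorial + 1 ∧ ¬ p ≡ 1 [MOD n]

/-- the odd EHS numbers `m ≤ x` which are multiples of `d` -/
noncomputable def S (d x : ℕ) : Finset ℕ :=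
  (Finset.Icc 1 x).filter fun m => Odd m ∧ d ∣ m ∧ EHS m

/-- all prime factors of `n! + 1` are `n + m + 1` with `m ∈ S d n!`, `m + 1 ≥ Y` -/
def Good (d Y n : ℕ) : Prop :=
  ∀ p : ℕ, p.Prime → p ∣ n.factorial + 1 →
    ∃ m ∈ S d n.factorial, n + m + 1 = p ∧ Y ≤ m + 1

/-- **W1** (Wilson). By induction on `k < p`: `k! (p - 1 - k)! ≡ (-1)^(k+1) (mod p)` (`k = 0` is
Wilson's lemma `ZMod.wilsons_lemma`, step: `(p - 1 - k) ≡ -(k + 1)`).  With `k = n` odd: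
`n! m! ≡ 1` and `n! ≡ -1`. -/
def W1Stmt : Prop :=
  ∀ n m p : ℕ, p.Prime → n + m + 1 = p → Odd n → p ∣ n.factorial + 1 → p ∣ m.factorial + 1

/-- **W2** (transfer). `¬ EHS n` gives `p = k n + 1`; `p > n`; `k = 1`: `p = n + 1` even; `k = 2`
excluded; `m = (k - 1) n`, `k ≥ 3`.  EHS by the prime `p` (`W1`): `p ≡ 1 (mod m)` would give
`(k - 1) n ∣ k n`, `k - 1 ∣ k`, impossible. -/
def W2Stmt : Prop :=
  ∀ n p : ℕ, Odd n → 3 ≤ n → p.Prime → p ∣ n.factorial + 1 → p ≠ 2 * n + 1 → ¬ EHS n →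
    ∃ m, n + m + 1 = p ∧ n ∣ m ∧ 2 * n ≤ m ∧ m ≤ n.factorial ∧ Odd m ∧ EHS m

/-- **FAC** (factorization of a good number). `e m = (n! + 1).factorization (m + 1 + n)` (zero if
`m + 1 + n` is not prime); `2 ^ (∑ e) ≤ n! + 1 ≤ 2 ^ (n ^ 2)`. -/
def FACStmt : Prop :=
  ∀ d Y n x : ℕ, 1 ≤ n → n.factorial ≤ x → Good d Y n →
    ∃ e : ℕ → ℕ,
      n.factorial + 1 = ∏ m ∈ (S d x).filter (fun m => Y ≤ m + 1), (m + 1 + n) ^ e m ∧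
      ∑ m ∈ (S d x).filter (fun m => Y ≤ m + 1), e m ≤ n ^ 2

/-- **BAD** (a bad number has a small EHS number). If `D q` is EHS take `m = D q`; otherwise `W2`
gives for all `p` an `m ∈ S d n!`, so for some `p` it has `m + 1 < Y`. -/
def BADStmt : Prop :=
  ∀ d D q Y : ℕ, Odd D → d ∣ D → q.Prime → 3 ≤ q → ¬ (2 * (D * q) + 1).Prime → D * q < Y →
    ¬ Good d Y (D * q) → ∃ m ∈ S d Y, m < Y ∧ q ∣ m

/-- **CNT** (one `m` serves few primes). The product of the `q ∈ Q` dividing `m` is at most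
`m < B ^ w`, so they are less than `w`. -/
def CNTStmt : Prop :=
  ∀ (Q T : Finset ℕ) (B w : ℕ), 2 ≤ B → (∀ q ∈ Q, q.Prime ∧ B ≤ q) →
    (∀ m ∈ T, 1 ≤ m ∧ m < B ^ w) → (∀ q ∈ Q, ∃ m ∈ T, q ∣ m) → Q.card ≤ w * T.card

/-- **BLK** (a block with many elements). Pigeonhole for `q ↦ q / J` (values `≤ N / J`):
a block with `2 L` elements; enumerate them (`Finset.orderEmbOfFin`), `a i`, `b i` are the elements
with numbers `2 i`, `2 i + 1`. -/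
def BLKStmt : Prop :=
  ∀ (G : Finset ℕ) (N J L : ℕ), 1 ≤ J → (∀ q ∈ G, q ≤ N) → 2 * L * (N / J + 1) ≤ G.card →
    ∃ a b : ℕ → ℕ, (∀ i < L, a i ∈ G ∧ b i ∈ G ∧ a i < b i) ∧
      (∀ i j, i < j → j < L → b i < a j) ∧ (∀ i < L, a 0 ≤ a i ∧ b i ≤ a 0 + J)

/-- **PIG** (pigeonhole). `Finset.exists_ne_map_eq_of_card_lt_of_maps_to` from the power set of
`range L` to the functions `T → range (L E + 1)` (`Finset.pi` or `Fintype.piFinset`). -/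
def PIGStmt : Prop :=
  ∀ (L E : ℕ) (T : Finset ℕ) (ea eb : ℕ → ℕ → ℕ),
    (∀ i < L, ∀ m ∈ T, ea i m ≤ E ∧ eb i m ≤ E) → (L * E + 1) ^ T.card < 2 ^ L →
    ∃ s s' : Finset ℕ, s ⊆ Finset.range L ∧ s' ⊆ Finset.range L ∧ s ≠ s' ∧
      ∀ m ∈ T, ∑ i ∈ Finset.range L, (if i ∈ s then eb i m else ea i m) =
        ∑ i ∈ Finset.range L, (if i ∈ s' then eb i m else ea i m)

/-- **UNQ** (the two integers are different). Let `i ∈ A` (or `B`): `q i` divides `b i`, so the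
left product; if it divides the right one it divides some `k ∈ Ioc (a j) (b j)`, `j ≠ i`; both
`k, b i` lie in `[x0, x0 + H]` and `H < q i`, so `k = b i`, impossible. -/
def UNQStmt : Prop :=
  ∀ (L H x0 : ℕ) (a b q : ℕ → ℕ) (A B : Finset ℕ), A ⊆ Finset.range L → B ⊆ Finset.range L →
    Disjoint A B → (A ∪ B).Nonempty →
    (∀ i < L, x0 ≤ a i ∧ a i < b i ∧ b i ≤ x0 + H ∧ (q i).Prime ∧ q i ∣ b i ∧ H < q i) →
    (∀ i j, i < j → j < L → b i < a j) →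
    ∏ i ∈ A, ∏ k ∈ Finset.Ioc (a i) (b i), k ≠ ∏ i ∈ B, ∏ k ∈ Finset.Ioc (a i) (b i), k

/-- **CL1** (equal exponents: the products are close). `(m + 1 + n) Y ≤ (m + 1) (Y + H')` for
`n ≤ H'`, `Y ≤ m + 1`; exchange the products over `i` and `m`; `∑_m ∑_i e i m ≤ L E`. -/
def CL1Stmt : Prop :=
  ∀ (L Y H' E : ℕ) (T : Finset ℕ) (n n' : ℕ → ℕ) (e e' : ℕ → ℕ → ℕ),
    (∀ m ∈ T, Y ≤ m + 1) → (∀ i < L, n i ≤ H') →
    (∀ m ∈ T, ∑ i ∈ Finset.range L, e i m = ∑ i ∈ Finset.range L, e' i m) →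
    (∀ i < L, ∑ m ∈ T, e i m ≤ E) →
    (∏ i ∈ Finset.range L, ∏ m ∈ T, (m + 1 + n i) ^ e i m) * Y ^ (L * E) ≤
      (∏ i ∈ Finset.range L, ∏ m ∈ T, (m + 1 + n' i) ^ e' i m) * (Y + H') ^ (L * E)

/-- **CL2** (the quotient is close to `U / V`). Factor by factor, with `R = ∏ k ∈ Ioc a b, k`,
`b! = R a!`: `(a! + 1) R x0! ≤ (R a! + 1) (x0! + 1)` and `(R a! + 1) x0! ≤ (a! + 1) R (x0! + 1)`. -/
def CL2Stmt : Prop :=
  ∀ (L x0 : ℕ) (a b : ℕ → ℕ) (s s' : Finset ℕ), s ⊆ Finset.range L → s' ⊆ Finset.range L →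
    (∀ i < L, x0 ≤ a i ∧ a i < b i) →
    (∏ i ∈ Finset.range L, ((if i ∈ s' then b i else a i).factorial + 1)) *
        (∏ i ∈ s \ s', ∏ k ∈ Finset.Ioc (a i) (b i), k) * x0.factorial ^ L ≤
      (∏ i ∈ Finset.range L, ((if i ∈ s then b i else a i).factorial + 1)) *
        (∏ i ∈ s' \ s, ∏ k ∈ Finset.Ioc (a i) (b i), k) * (x0.factorial + 1) ^ L

/-- **EXB** (numbers). In real numbers: `(1 + 1/F)^L (1 + H'/Y)^Φ ≤ exp (L/F + Φ H'/Y) ≤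
exp (1/(4W)) < 1 + 1/W ≤ 1 + 1/V`. -/
def EXBStmt : Prop :=
  ∀ V W L Φ F Y H' : ℕ, 1 ≤ V → V ≤ W → 1 ≤ F → 1 ≤ Y → 8 * L * W ≤ F → 8 * Φ * (W * H') ≤ Y →
    V * (F + 1) ^ L * (Y + H') ^ Φ < (V + 1) * F ^ L * Y ^ Φ

/-- **REL** (few factors are impossible). Otherwise `PIG` gives `s ≠ s'`; `A = s \ s'`,
`B = s' \ s`, `UNQ`: `U ≠ V`, by symmetry `V + 1 ≤ U`.  `CL1` and `CL2` give
`U F^L Y^Φ ≤ V (F + 1)^L (Y + H')^Φ`, `F = x0!`, `Φ = L E`, `H' = x0 + H`; `V ≤ W = (x0 + H)^H`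
(disjoint subintervals of `Ioc x0 (x0 + H)`); `EXB`.  (`L ≥ 1` gives `E ≥ 1`, `Y ≥ 1`.) -/
def RELStmt : Prop :=
  ∀ (L H x0 Y E : ℕ) (a b q : ℕ → ℕ) (T : Finset ℕ) (ea eb : ℕ → ℕ → ℕ), 1 ≤ x0 →
    (∀ i < L, x0 ≤ a i ∧ a i < b i ∧ b i ≤ x0 + H ∧ (q i).Prime ∧ q i ∣ b i ∧ H < q i) →
    (∀ i j, i < j → j < L → b i < a j) →
    (∀ m ∈ T, Y ≤ m + 1) →
    (∀ i < L, (a i).factorial + 1 = ∏ m ∈ T, (m + 1 + a i) ^ ea i m ∧ ∑ m ∈ T, ea i m ≤ E) →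
    (∀ i < L, (b i).factorial + 1 = ∏ m ∈ T, (m + 1 + b i) ^ eb i m ∧ ∑ m ∈ T, eb i m ≤ E) →
    8 * L * (x0 + H) ^ H ≤ x0.factorial → 8 * (L * E) * (x0 + H) ^ (H + 1) ≤ Y →
    2 ^ L ≤ (L * E + 1) ^ T.card

/-- **COR** (finite form). `G = {q ∈ Q | Good d Y (D q)}`.  If `2 |G| < |Q|`: `BAD` for
`q ∈ Q \ G`, `CNT`.  Otherwise `BLK` for `G`, `REL` with `a i, b i` multiplied by `D`, `q i = b i`,
`x0 = D a 0`, `H = D J`, `T = (S d x).filter (Y ≤ m + 1)`, `FAC`, `E = (D N) ^ 2`. -/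
def CORStmt : Prop :=
  ∀ (d D N J L B w x Y : ℕ) (Q : Finset ℕ), Odd D → d ∣ D → 1 ≤ J → 1 ≤ L → 3 ≤ B → D * J < B →
    (∀ q ∈ Q, q.Prime ∧ B ≤ q ∧ q ≤ N ∧ ¬ (2 * (D * q) + 1).Prime) →
    4 * L * (N / J + 1) ≤ Q.card → (D * N).factorial ≤ x →
    Y = 8 * (L * (D * N) ^ 2) * (2 * D * N) ^ (D * J + 1) → Y ≤ B ^ w →
    8 * L * (2 * D * N) ^ (D * J) ≤ B.factorial →
    Q.card ≤ 2 * w * (S d Y).card ∨ 2 ^ L ≤ (L * (D * N) ^ 2 + 1) ^ (S d x).card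

/-- **PRM** (the primes used). Let `l` be a prime `> 2 d + 1`.  For a prime `q > l` there is an odd
`t < 2 l` with `l ∣ 2 d t q + 1`; pigeonhole on `t`, `D = d t`, `Dm = 2 l d`;
`2 D q + 1 > l` is a multiple of `l`.  Number of primes: `Chebyshev.pi_ge` in Mathlib, minus
`N ^ (3/4) + 1 + l`; `c = 1 / (8 l)`. -/
def PRMStmt : Prop :=
  ∀ d : ℕ, Odd d → ∃ (Dm : ℕ) (c : ℝ), 0 < c ∧ ∀ᶠ N : ℕ in Filter.atTop,
    ∃ (D : ℕ) (Q : Finset ℕ), Odd D ∧ d ∣ D ∧ D ≤ Dm ∧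
      (∀ q ∈ Q, q.Prime ∧ (N : ℝ) ^ (3 / 4 : ℝ) ≤ q ∧ q ≤ N ∧ ¬ (2 * (D * q) + 1).Prime) ∧
      c * N / Real.log N ≤ Q.card

/-- **DIC** (dichotomy). `PRM` (`c₀`, `Dm`, `D`, `Q`), `COR` with `B = ⌈N^(3/4)⌉`,
`L = ⌊c₀ J / (8 log N)⌋` (so `4 L (N / J + 1) ≤ 8 L N / J ≤ c₀ N / log N`), `x = (D N)!`,
`w = ⌈log Y / log B⌉`; `log Y ≤ C₁ J log N`, `w ≤ C₂ J`.
First case: `|S d Y| ≥ |Q| / (2 w)`.  Second case: `L log 2 ≤ |S| log (L (D N)^2 + 1) ≤ 4 |S| log N`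
and `(D N)! ≤ (D N)^(D N) ≤ exp (C N log N)`.
`B! ≥ 8 L (2 D N)^(D J)` for large `N`: `D J ≤ Dm N^0.7`, `B! ≥ 2^(B - 1) ≥ 2^(N^0.75 - 1)`. -/
def DICStmt : Prop :=
  ∀ d : ℕ, Odd d → ∃ c C : ℝ, 0 < c ∧ 1 ≤ C ∧ ∀ᶠ N : ℕ in Filter.atTop,
    ∀ J : ℕ, (Real.log N) ^ 2 ≤ J → (J : ℝ) ≤ (N : ℝ) ^ (7 / 10 : ℝ) →
      c * N / (J * Real.log N) ≤ ((S d ⌊Real.exp (C * J * Real.log N)⌋₊).card : ℝ) ∨
      c * J / (Real.log N) ^ 2 ≤ ((S d ⌊Real.exp (C * N * Real.log N)⌋₊).card : ℝ)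

/-- **LIM** (all large `x`). `DIC` with `N = ⌊log x / (C log log x)⌋` (`C N log N ≤ log x` since
`N ≤ log x`) and `J = ⌈√(N log N)⌉`: both alternatives give
`|S d x| ≥ (c / 2) √N / (log N)^(3/2)`, and `N ≥ log x / (2 C log log x)`, `log N ≤ log log x`. -/
def LIMStmt : Prop :=
  ∀ d : ℕ, Odd d → ∃ c : ℝ, 0 < c ∧ ∀ᶠ x : ℕ in Filter.atTop,
    c * √(Real.log x) / (Real.log (Real.log x)) ^ 2 ≤ ((S d x).card : ℝ)

/-- **SUP** (infinitely many `x`). Suppose `|S d x| < (log x)^θ` for all large `x`.  Choose `μ` with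
`θ < μ < 7/10`, `μ (1 + θ) < 1` and `J = ⌊N ^ μ⌋` in `DIC`: the first alternative gives
`c N^(1 - μ) / log N ≤ (C N^μ log N)^θ`, the second `(c/2) N^μ / (log N)^2 ≤ (C N log N)^θ`; both are
false for large `N`. -/
def SUPStmt : Prop :=
  ∀ d : ℕ, Odd d → ∀ θ : ℝ, 0 < θ → θ * (1 + θ) < 1 →
    ∃ᶠ x : ℕ in Filter.atTop, (Real.log x) ^ θ ≤ ((S d x).card : ℝ)

end EHN
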