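import Pool.Agent.H44.EHN.Stmts

/-! Row DIC of board `ehn`: the dichotomy. -/

set_option autoImplicit false

open Classical Filter

namespace EHN

theorem DIC.S_mono (d : ℕ) {x y : ℕ} (h : x ≤ y) : S d x ⊆ S d y := by
  unfold S
  exact Finset.filter_subset_filter _ (Finset.Icc_subset_Icc le_rfl h)

theorem DIC.fac (n : ℕ) : 2 ^ (n - 1) ≤ n.factorial := by
  induction n with
  | zero => simp
  | succ n ih =>
    rcases n with _ | k
    · simp
    · have e : k + 1 + 1 - 1 = (k + 1 - 1) + 1 := by omega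
      rw [e, pow_succ, Nat.factorial_succ (k + 1), mul_comm]
      exact Nat.mul_le_mul (by omega) ih

theorem DIC.a1 (l J : ℝ) (h : 1 ≤ l) (h2 : l ^ 2 ≤ J) : 1 ≤ J := by nlinarith

theorem DIC.a2 (c l J : ℝ) (hc : 0 < c) (hl : 0 < l) (h : 8 ≤ c * l) (h2 : l ^ 2 ≤ J) :
    8 * l ≤ c * J := by
  have h3 : c * l ^ 2 ≤ c * J := mul_le_mul_of_nonneg_left h2 hc.le
  have h4 : 8 * l ≤ (c * l) * l := mul_le_mul_of_nonneg_right h hl.le
  linarith

theorem DIC.a3 (c l J : ℝ) (hc : c ≤ 1) (hJ : 0 < J) (hl : 1 ≤ l) : c * J ≤ J * (8 * l) := by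
  have h1 : c * J ≤ 1 * J := mul_le_mul_of_nonneg_right hc hJ.le
  have h2 : J * 1 ≤ J * l := mul_le_mul_of_nonneg_left hl hJ.le
  linarith

theorem DIC.a4 (D Dm N : ℝ) (h : D ≤ Dm) (h2 : 2 * Dm + 8 ≤ N) (hN : 0 < N) :
    2 * (D * N) ≤ N ^ 2 := by
  have h1 : D * N ≤ Dm * N := mul_le_mul_of_nonneg_right h hN.le
  have h3 : (2 * Dm + 8) * N ≤ N * N := mul_le_mul_of_nonneg_right h2 hN.le
  linarith

theorem DIC.a5 (D N : ℝ) (h : 1 ≤ D) (h2 : 1 ≤ N) : 1 ≤ D * N := by nlinarith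

theorem DIC.a6 (l8 lL lDN X Dm J l : ℝ) (h8 : l8 ≤ 3) (hL : lL ≤ l) (hDN : lDN ≤ 2 * l)
    (hX : X ≤ (Dm * J + 1) * (2 * l)) (hl : 1 ≤ l) (hJ : 1 ≤ J) :
    l8 + lL + 2 * lDN + X ≤ (2 * Dm + 10) * J * l := by
  have h6 : l ≤ J * l := by nlinarith
  linarith

theorem DIC.a7 (Dm P R B : ℝ) (hDm : 1 ≤ Dm) (h : (4 * Dm + 20) * P ≤ R) (hB : R ≤ B)
    (hP : 1 ≤ P) : 3 ≤ B := by
  have : 1 ≤ Dm * P := by nlinarith
  linarith

theorem DIC.a8 (Dm J l lB r : ℝ) (hDm : 0 ≤ Dm) (hJ : 0 ≤ J) (h : 3 / 4 * l ≤ lB)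
    (hr : r ≤ (2 * Dm + 10) * J * l) : r ≤ 4 / 3 * ((2 * Dm + 10) * J) * lB := by
  have h3 : 4 / 3 * ((2 * Dm + 10) * J) * (3 / 4 * l) ≤ 4 / 3 * ((2 * Dm + 10) * J) * lB :=
    mul_le_mul_of_nonneg_left h (by positivity)
  linarith

theorem DIC.a9 (w r Dm J : ℝ) (h1 : w < r + 1) (h2 : r ≤ 4 / 3 * ((2 * Dm + 10) * J))
    (hJ : 1 ≤ J) (hDm : 1 ≤ Dm) : w ≤ 3 * (2 * Dm + 10) * J := by
  have : 1 ≤ Dm * J := by nlinarith
  linarith

theorem DIC.a10 (x Dm P R B : ℝ) (hDm : 1 ≤ Dm) (h : (4 * Dm + 20) * P ≤ R) (hB : R ≤ B)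
    (hP : 1 ≤ P) (hx : x ≤ Dm * P) : x < B := by
  have : 1 ≤ Dm * P := by nlinarith
  linarith

theorem DIC.a11 (l8 lL X Dm P R B t : ℝ) (h8 : l8 ≤ 3) (hL : lL ≤ P) (hX : X ≤ 2 * Dm * P)
    (h : (4 * Dm + 20) * P ≤ R) (hB : R ≤ B) (hP : 1 ≤ P) (ht : (B - 1) * (1 / 2) ≤ t) :
    l8 + lL + X ≤ t := by
  linarith

theorem DIC.a12 (c N l Dm J s : ℝ) (hl : 0 < l) (hJ : 0 < J) (hs : 0 ≤ s) (hDm : 0 ≤ Dm)
    (h : c * N / l ≤ 2 * (3 * (2 * Dm + 10) * J) * s) :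
    c / (200 * (2 * Dm + 10)) * N / (J * l) ≤ s := by
  rw [div_le_iff₀ hl] at h
  rw [div_le_iff₀ (by positivity), div_mul_eq_mul_div, div_le_iff₀ (by positivity)]
  have h5 : 0 ≤ s * J * l * (2 * Dm + 10) := by positivity
  linarith

theorem DIC.a13 (c Dm J l s L : ℝ) (hl : 0 < l) (hs : 0 ≤ s) (hDm : 0 ≤ Dm)
    (h1 : L * (1 / 2) ≤ s * (6 * l)) (h2 : c * J / (16 * l) ≤ L) :
    c / (200 * (2 * Dm + 10)) * J / l ^ 2 ≤ s := by
  rw [div_le_iff₀ (by positivity)] at h2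
  rw [div_le_iff₀ (by positivity), div_mul_eq_mul_div, div_le_iff₀ (by positivity)]
  have h3 : L * (16 * l) ≤ (s * (12 * l)) * (16 * l) :=
    mul_le_mul_of_nonneg_right (by linarith) (by positivity)
  have h5 : 0 ≤ s * l ^ 2 := by positivity
  have h6 : 0 ≤ s * l ^ 2 * Dm := by positivity
  linarith

theorem DIC.a14 (L D N : ℝ) (hN : 8 ≤ N) (hL : L ≤ N) (hL0 : 0 ≤ L) (hD : 0 ≤ D)
    (hDN : 2 * (D * N) ≤ N ^ 2) : L * (D * N) ^ 2 + 1 ≤ N ^ 6 := by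
  have h0 : 0 ≤ D * N := by positivity
  have h5 : D * N ≤ N ^ 2 := by linarith
  have h6 : (D * N) ^ 2 ≤ (N ^ 2) ^ 2 := pow_le_pow_left₀ h0 h5 2
  have h7 : L * (D * N) ^ 2 ≤ N * (N ^ 2) ^ 2 := mul_le_mul hL h6 (by positivity) (by linarith)
  have h8 : 1 ≤ N * (N ^ 2) ^ 2 := by
    have h1 : 1 ≤ N := by linarith
    have h2 : 1 ≤ (N ^ 2) ^ 2 := one_le_pow₀ (one_le_pow₀ h1)
    nlinarith
  have h9 : N ^ 6 = N * (N * (N ^ 2) ^ 2) := by ring
  rw [h9]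
  nlinarith

theorem DIC.a15 (D Dm N l x : ℝ) (hD : D ≤ Dm) (hD0 : 0 ≤ D) (hN : 0 < N) (hl : 0 < l)
    (hx : x ≤ 2 * l) (hx0 : 0 ≤ x) : D * N * x ≤ (2 * Dm + 10) * N * l := by
  have h2 : D * N * x ≤ Dm * N * (2 * l) :=
    mul_le_mul (mul_le_mul_of_nonneg_right hD hN.le) hx hx0 (by nlinarith)
  have h3 : 0 ≤ N * l := by positivity
  linarith

/-- the deterministic part -/
theorem DIC.det (hCOR : CORStmt) (d Dm : ℕ) (c1 : ℝ) (hc1 : 0 < c1) (hc1' : c1 ≤ 1) (N D : ℕ)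
    (Q : Finset ℕ) (hDo : Odd D) (hdD : d ∣ D) (hDm : D ≤ Dm)
    (hQ : ∀ q ∈ Q, q.Prime ∧ (N : ℝ) ^ (3 / 4 : ℝ) ≤ q ∧ q ≤ N ∧ ¬ (2 * (D * q) + 1).Prime)
    (hQc : c1 * N / Real.log N ≤ Q.card)
    (E1 : Real.log N ≤ (N : ℝ) ^ (1 / 100 : ℝ))
    (E2 : 4 * (Dm : ℝ) + 20 ≤ (N : ℝ) ^ (1 / 25 : ℝ))
    (E3 : 1 + 8 / c1 ≤ Real.log N)
    (E4 : 2 * Dm + 8 ≤ N) (J : ℕ) (hJ1 : (Real.log N) ^ 2 ≤ J)
    (hJ2 : (J : ℝ) ≤ (N : ℝ) ^ (7 / 10 : ℝ)) :
    c1 / (200 * (2 * Dm + 10)) * N / (J * Real.log N) ≤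
        ((S d ⌊Real.exp ((2 * Dm + 10) * J * Real.log N)⌋₊).card : ℝ) ∨
      c1 / (200 * (2 * Dm + 10)) * J / (Real.log N) ^ 2 ≤
        ((S d ⌊Real.exp ((2 * Dm + 10) * N * Real.log N)⌋₊).card : ℝ) := by
  have hD1 : 1 ≤ D := hDo.pos
  have hN8 : 8 ≤ N := by omega
  have hN0 : (0 : ℝ) < N := by positivity
  have hN1 : (1 : ℝ) ≤ N := by
    have : (1 : ℕ) ≤ N := by omega
    exact_mod_cast this
  have h8c : 0 < 8 / c1 := by positivity
  have hl1 : 1 ≤ Real.log N := by linarith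
  have hl0 : 0 < Real.log N := by linarith
  have hDm1 : (1 : ℝ) ≤ Dm := by
    have : 1 ≤ Dm := le_trans hD1 hDm
    exact_mod_cast this
  have hDDm : (D : ℝ) ≤ Dm := by exact_mod_cast hDm
  have hD1' : (1 : ℝ) ≤ D := by exact_mod_cast hD1
  -- J
  have hJ1' : (1 : ℝ) ≤ J := DIC.a1 _ _ hl1 hJ1
  have hJ0 : (0 : ℝ) < J := by linarith
  have hJn : 1 ≤ J := by exact_mod_cast hJ1'
  -- powers
  have p71 : (N : ℝ) ^ (71 / 100 : ℝ) * (N : ℝ) ^ (1 / 25 : ℝ) = (N : ℝ) ^ (3 / 4 : ℝ) := by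
    rw [← Real.rpow_add hN0]
    norm_num
  have p70 : (N : ℝ) ^ (7 / 10 : ℝ) * (N : ℝ) ^ (1 / 100 : ℝ) = (N : ℝ) ^ (71 / 100 : ℝ) := by
    rw [← Real.rpow_add hN0]
    norm_num
  have q71 : (1 : ℝ) ≤ (N : ℝ) ^ (71 / 100 : ℝ) := Real.one_le_rpow hN1 (by norm_num)
  have q70 : (1 : ℝ) ≤ (N : ℝ) ^ (7 / 10 : ℝ) := Real.one_le_rpow hN1 (by norm_num)
  have q1 : (1 : ℝ) ≤ (N : ℝ) ^ (1 / 100 : ℝ) := Real.one_le_rpow hN1 (by norm_num)
  have q7N : (N : ℝ) ^ (7 / 10 : ℝ) ≤ N := by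
    calc (N : ℝ) ^ (7 / 10 : ℝ) ≤ (N : ℝ) ^ (1 : ℝ) :=
          Real.rpow_le_rpow_of_exponent_le hN1 (by norm_num)
      _ = N := Real.rpow_one _
  have hJN : (J : ℝ) ≤ N := le_trans hJ2 q7N
  have big : (4 * (Dm : ℝ) + 20) * (N : ℝ) ^ (71 / 100 : ℝ) ≤ (N : ℝ) ^ (3 / 4 : ℝ) := by
    rw [← p71, mul_comm]
    exact mul_le_mul_of_nonneg_left E2 (by positivity)
  have h7071 : (N : ℝ) ^ (7 / 10 : ℝ) ≤ (N : ℝ) ^ (71 / 100 : ℝ) :=
    Real.rpow_le_rpow_of_exponent_le hN1 (by norm_num)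
  -- the parameters
  obtain ⟨B, hB⟩ : ∃ B : ℕ, B = ⌈(N : ℝ) ^ (3 / 4 : ℝ)⌉₊ := ⟨_, rfl⟩
  have hBle : (N : ℝ) ^ (3 / 4 : ℝ) ≤ B := by
    rw [hB]
    exact Nat.le_ceil _
  obtain ⟨L, hL⟩ : ∃ L : ℕ, L = ⌊c1 * J / (8 * Real.log N)⌋₊ := ⟨_, rfl⟩
  have hy1 : 1 ≤ c1 * J / (8 * Real.log N) := by
    rw [le_div_iff₀ (by positivity)]
    have : 8 ≤ c1 * Real.log N := by
      have h := mul_le_mul_of_nonneg_left E3 hc1.le
      rw [mul_add, mul_div_cancel₀ _ hc1.ne'] at h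
      linarith
    rw [one_mul]
    exact DIC.a2 _ _ _ hc1 hl0 this hJ1
  have hL1 : 1 ≤ L := by
    rw [hL]
    exact Nat.le_floor (by exact_mod_cast hy1)
  have hLle : (L : ℝ) ≤ c1 * J / (8 * Real.log N) := by
    rw [hL]
    exact Nat.floor_le (by positivity)
  have hLge : c1 * J / (16 * Real.log N) ≤ L := by
    have h1 : c1 * J / (8 * Real.log N) < L + 1 := by
      rw [hL]
      exact Nat.lt_floor_add_one _
    have h2 : (1 : ℝ) ≤ L := by exact_mod_cast hL1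
    have h3 : c1 * J / (16 * Real.log N) = (c1 * J / (8 * Real.log N)) / 2 := by
      field_simp
      ring
    rw [h3]
    linarith
  have hLJ : (L : ℝ) ≤ J := by
    refine le_trans hLle ?_
    rw [div_le_iff₀ (by positivity)]
    exact DIC.a3 _ _ _ hc1' hJ0 hl1
  have hLN : (L : ℝ) ≤ N := le_trans hLJ hJN
  have hL0 : (1 : ℝ) ≤ L := by exact_mod_cast hL1
  obtain ⟨Y, hY⟩ : ∃ Y : ℕ, Y = 8 * (L * (D * N) ^ 2) * (2 * D * N) ^ (D * J + 1) := ⟨_, rfl⟩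
  have hDN2 : 2 * ((D : ℝ) * N) ≤ (N : ℝ) ^ 2 := by
    have h1 : 2 * (Dm : ℝ) + 8 ≤ N := by exact_mod_cast E4
    exact DIC.a4 _ _ _ hDDm h1 hN0
  have hDN1 : (1 : ℝ) ≤ (D : ℝ) * N := DIC.a5 _ _ hD1' hN1
  have hlDN : Real.log (2 * (D : ℝ) * N) ≤ 2 * Real.log N := by
    have h1 : Real.log (2 * (D : ℝ) * N) ≤ Real.log ((N : ℝ) ^ 2) :=
      Real.log_le_log (by positivity) (by linarith)
    rw [Real.log_pow] at h1
    exact_mod_cast h1
  have hlDN' : Real.log ((D : ℝ) * N) ≤ 2 * Real.log N := by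
    have h1 : Real.log ((D : ℝ) * N) ≤ Real.log (2 * (D : ℝ) * N) :=
      Real.log_le_log (by positivity) (by linarith)
    linarith
  have hlog8 : Real.log 8 ≤ 3 := by
    have h1 : Real.log 8 = 3 * Real.log 2 := by
      rw [show (8 : ℝ) = 2 ^ 3 by norm_num, Real.log_pow]
      norm_num
    have h2 : Real.log 2 ≤ 1 := by
      have := Real.log_two_lt_d9
      linarith
    linarith
  have hYr : (Y : ℝ) = 8 * (L * (D * N) ^ 2) * (2 * D * N) ^ (D * J + 1) := by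
    rw [hY]
    push_cast
    ring
  have hYpos : (0 : ℝ) < Y := by
    rw [hYr]
    positivity
  have hlY : Real.log Y ≤ (2 * Dm + 10) * J * Real.log N := by
    have h1 : Real.log Y = Real.log 8 + Real.log L + 2 * Real.log ((D : ℝ) * N) +
        ((D * J + 1 : ℕ) : ℝ) * Real.log (2 * (D : ℝ) * N) := by
      rw [hYr, Real.log_mul (by positivity) (by positivity), Real.log_mul (by positivity)
        (by positivity), Real.log_mul (by positivity) (by positivity), Real.log_pow, Real.log_pow]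
      push_cast
      ring
    have h2 : Real.log L ≤ Real.log N := Real.log_le_log (by linarith) hLN
    have h3 : ((D * J + 1 : ℕ) : ℝ) * Real.log (2 * (D : ℝ) * N) ≤
        (Dm * J + 1) * (2 * Real.log N) := by
      have h4 : ((D * J + 1 : ℕ) : ℝ) ≤ Dm * J + 1 := by
        push_cast
        have := mul_le_mul_of_nonneg_right hDDm hJ0.le
        linarith
      have h5 : 0 ≤ Real.log (2 * (D : ℝ) * N) := Real.log_nonneg (by linarith)
      exact mul_le_mul h4 hlDN h5 (by positivity)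
    rw [h1]
    exact DIC.a6 _ _ _ _ _ _ _ hlog8 h2 hlDN' h3 hl1 hJ1'
  obtain ⟨w, hw⟩ : ∃ w : ℕ, w = ⌈Real.log Y / Real.log B⌉₊ := ⟨_, rfl⟩
  have hlB : 3 / 4 * Real.log N ≤ Real.log B := by
    have h1 : Real.log ((N : ℝ) ^ (3 / 4 : ℝ)) ≤ Real.log B :=
      Real.log_le_log (by positivity) hBle
    rwa [Real.log_rpow hN0] at h1
  have hlB0 : 0 < Real.log B := by linarith
  have hB3r : (3 : ℝ) ≤ B := DIC.a7 _ _ _ _ hDm1 big hBle q71
  have hB3 : 3 ≤ B := by exact_mod_cast hB3r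
  have hYB : Y ≤ B ^ w := by
    have h1 : Real.log Y ≤ w * Real.log B := by
      rw [← div_le_iff₀ hlB0, hw]
      exact Nat.le_ceil _
    have h2 : (Y : ℝ) ≤ (B : ℝ) ^ w := by
      rw [← Real.log_le_log_iff hYpos (by positivity), Real.log_pow]
      exact h1
    exact_mod_cast h2
  have hwle : (w : ℝ) ≤ 3 * (2 * Dm + 10) * J := by
    have hYl0 : 0 ≤ Real.log Y := by
      apply Real.log_nonneg
      have : 1 ≤ Y := by
        have h : (0 : ℝ) < Y := hYpos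
        have : 0 < Y := by exact_mod_cast h
        omega
      exact_mod_cast this
    have h1 : (w : ℝ) < Real.log Y / Real.log B + 1 := by
      rw [hw]
      exact Nat.ceil_lt_add_one (by positivity)
    have h2 : Real.log Y / Real.log B ≤ 4 / 3 * ((2 * Dm + 10) * J) := by
      rw [div_le_iff₀ hlB0]
      exact DIC.a8 _ _ _ _ _ (by linarith) hJ0.le hlB hlY
    exact DIC.a9 _ _ _ _ h1 h2 hJ1' hDm1
  -- apply COR
  have hDJB : D * J < B := by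
    have h1 : ((D * J : ℕ) : ℝ) < B := by
      push_cast
      have h2 : (D : ℝ) * J ≤ Dm * (N : ℝ) ^ (71 / 100 : ℝ) :=
        mul_le_mul hDDm (le_trans hJ2 h7071) (by positivity) (by positivity)
      exact DIC.a10 _ _ _ _ _ hDm1 big hBle q71 h2
    exact_mod_cast h1
  have hQ' : ∀ q ∈ Q, q.Prime ∧ B ≤ q ∧ q ≤ N ∧ ¬ (2 * (D * q) + 1).Prime := by
    intro q hq
    obtain ⟨h1, h2, h3, h4⟩ := hQ q hq
    refine ⟨h1, ?_, h3, h4⟩
    rw [hB]
    exact Nat.ceil_le.mpr h2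
  have hcard : 4 * L * (N / J + 1) ≤ Q.card := by
    have h1 : ((4 * L * (N / J + 1) : ℕ) : ℝ) ≤ Q.card := by
      refine le_trans ?_ hQc
      have h2 : ((N / J : ℕ) : ℝ) ≤ (N : ℝ) / J := Nat.cast_div_le
      have h3 : (1 : ℝ) ≤ (N : ℝ) / J := by
        rw [le_div_iff₀ hJ0]
        linarith
      push_cast
      calc 4 * (L : ℝ) * (((N / J : ℕ) : ℝ) + 1) ≤ 4 * (c1 * J / (8 * Real.log N)) *
            (2 * ((N : ℝ) / J)) := by
            apply mul_le_mul _ _ (by positivity) (by positivity)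
            · linarith
            · linarith
        _ = c1 * N / Real.log N := by
            field_simp
            ring
    exact_mod_cast h1
  have hfac : 8 * L * (2 * D * N) ^ (D * J) ≤ B.factorial := by
    refine le_trans ?_ (DIC.fac B)
    have h1 : ((8 * L * (2 * D * N) ^ (D * J) : ℕ) : ℝ) ≤ ((2 ^ (B - 1) : ℕ) : ℝ) := by
      push_cast
      rw [← Real.log_le_log_iff (by positivity) (by positivity), Real.log_pow,
        Real.log_mul (by positivity) (by positivity), Real.log_pow,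
        Real.log_mul (by norm_num) (by positivity)]
      have h2 : Real.log L ≤ Real.log N := Real.log_le_log (by linarith) hLN
      have h3 : ((D * J : ℕ) : ℝ) * Real.log (2 * (D : ℝ) * N) ≤
          (Dm * (N : ℝ) ^ (7 / 10 : ℝ)) * (2 * (N : ℝ) ^ (1 / 100 : ℝ)) := by
        have h4 : ((D * J : ℕ) : ℝ) ≤ Dm * (N : ℝ) ^ (7 / 10 : ℝ) := by
          push_cast
          exact mul_le_mul hDDm hJ2 (by positivity) (by positivity)
        have h5 : 0 ≤ Real.log (2 * (D : ℝ) * N) := Real.log_nonneg (by linarith)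
        exact mul_le_mul h4 (by linarith) h5 (by positivity)
      have h6 : (Dm * (N : ℝ) ^ (7 / 10 : ℝ)) * (2 * (N : ℝ) ^ (1 / 100 : ℝ)) =
          2 * Dm * (N : ℝ) ^ (71 / 100 : ℝ) := by
        rw [← p70]
        ring
      have h7 : ((B - 1 : ℕ) : ℝ) = (B : ℝ) - 1 := by
        rw [Nat.cast_sub (by omega)]
        simp
      have h8 : (1 : ℝ) / 2 ≤ Real.log 2 := by
        have := Real.log_two_gt_d9
        linarith
      have h9 : Real.log N ≤ (N : ℝ) ^ (71 / 100 : ℝ) :=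
        le_trans E1 (Real.rpow_le_rpow_of_exponent_le hN1 (by norm_num))
      rw [h7]
      have h10 : ((B : ℝ) - 1) * (1 / 2) ≤ ((B : ℝ) - 1) * Real.log 2 :=
        mul_le_mul_of_nonneg_left h8 (by linarith)
      rw [h6] at h3
      exact DIC.a11 _ _ _ _ _ _ _ _ hlog8 (h2.trans h9) h3 big hBle q71 h10
    exact_mod_cast h1
  have hc : 0 < c1 / (200 * (2 * (Dm : ℝ) + 10)) := by positivity
  rcases hCOR d D N J L B w (D * N).factorial Y Q hDo hdD hJn hL1 hB3 hDJB hQ' hcard le_rfl hY hYB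
    hfac with h | h
  · left
    have hYS : S d Y ⊆ S d ⌊Real.exp ((2 * Dm + 10) * J * Real.log N)⌋₊ := by
      apply DIC.S_mono
      apply Nat.le_floor
      rw [← Real.log_le_iff_le_exp hYpos]
      exact hlY
    have hS : ((S d Y).card : ℝ) ≤
        ((S d ⌊Real.exp ((2 * Dm + 10) * J * Real.log N)⌋₊).card : ℝ) := by
      exact_mod_cast Finset.card_le_card hYS
    refine le_trans ?_ hS
    have h1 : (Q.card : ℝ) ≤ 2 * w * (S d Y).card := by exact_mod_cast h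
    have h2 : c1 * N / Real.log N ≤ 2 * (3 * (2 * Dm + 10) * J) * (S d Y).card := by
      refine le_trans hQc (le_trans h1 ?_)
      have h0 : (0 : ℝ) ≤ ((S d Y).card : ℝ) := by positivity
      exact mul_le_mul_of_nonneg_right (by linarith) h0
    exact DIC.a12 _ _ _ _ _ _ hl0 hJ0 (by positivity) (by linarith) h2
  · right
    have hxS : S d (D * N).factorial ⊆ S d ⌊Real.exp ((2 * Dm + 10) * N * Real.log N)⌋₊ := by
      apply DIC.S_mono
      apply Nat.le_floor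
      have h1 : (((D * N).factorial : ℕ) : ℝ) ≤ ((D * N : ℕ) : ℝ) ^ (D * N) := by
        exact_mod_cast Nat.factorial_le_pow (D * N)
      refine le_trans h1 ?_
      rw [← Real.log_le_iff_le_exp (by positivity), Real.log_pow]
      push_cast
      exact DIC.a15 _ _ _ _ _ hDDm (by linarith) hN0 hl0 hlDN' (Real.log_nonneg hDN1)
    have hS : ((S d (D * N).factorial).card : ℝ) ≤
        ((S d ⌊Real.exp ((2 * Dm + 10) * N * Real.log N)⌋₊).card : ℝ) := by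
      exact_mod_cast Finset.card_le_card hxS
    refine le_trans ?_ hS
    obtain ⟨s, hs⟩ : ∃ s : ℕ, s = (S d (D * N).factorial).card := ⟨_, rfl⟩
    rw [← hs] at h ⊢
    have h1 : (2 : ℝ) ^ L ≤ ((L : ℝ) * (D * N) ^ 2 + 1) ^ s := by exact_mod_cast h
    have h2 : (L : ℝ) * Real.log 2 ≤ s * Real.log ((L : ℝ) * (D * N) ^ 2 + 1) := by
      have := Real.log_le_log (by positivity) h1
      rwa [Real.log_pow, Real.log_pow] at this
    have h3 : Real.log ((L : ℝ) * (D * N) ^ 2 + 1) ≤ 6 * Real.log N := by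
      have h4 : (L : ℝ) * (D * N) ^ 2 + 1 ≤ (N : ℝ) ^ 6 :=
        DIC.a14 _ _ _ (by exact_mod_cast hN8) hLN (by linarith) (by linarith) hDN2
      have h5 := Real.log_le_log (by positivity) h4
      rw [Real.log_pow] at h5
      exact_mod_cast h5
    have h4 : (L : ℝ) * (1 / 2) ≤ s * (6 * Real.log N) := by
      have h5 : (1 : ℝ) / 2 ≤ Real.log 2 := by
        have := Real.log_two_gt_d9
        linarith
      have h6 : (L : ℝ) * (1 / 2) ≤ L * Real.log 2 := mul_le_mul_of_nonneg_left h5 (by positivity)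
      have h7 : (s : ℝ) * Real.log ((L : ℝ) * (D * N) ^ 2 + 1) ≤ s * (6 * Real.log N) :=
        mul_le_mul_of_nonneg_left h3 (by positivity)
      linarith
    exact DIC.a13 _ _ _ _ _ _ hl0 (by positivity) (by linarith) h4 hLge

theorem dic_thm (hCOR : CORStmt) (hPRM : PRMStmt) : DICStmt := by
  intro d hd
  obtain ⟨Dm, c0, hc0, hP⟩ := hPRM d hd
  obtain ⟨c1, hc1, hc11, hc10⟩ : ∃ c1 : ℝ, 0 < c1 ∧ c1 ≤ 1 ∧ c1 ≤ c0 :=
    ⟨min c0 1, lt_min hc0 one_pos, min_le_right _ _, min_le_left _ _⟩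
  refine ⟨c1 / (200 * (2 * Dm + 10)), 2 * Dm + 10, by positivity, ?_, ?_⟩
  · have : (0 : ℝ) ≤ Dm := by positivity
    linarith
  have hcast : Tendsto (fun N : ℕ => (N : ℝ)) atTop atTop := tendsto_natCast_atTop_atTop
  have E1 : ∀ᶠ N : ℕ in atTop, Real.log N ≤ (N : ℝ) ^ (1 / 100 : ℝ) := by
    have h := (isLittleO_log_rpow_atTop (show (0 : ℝ) < 1 / 100 by norm_num)).def
      (show (0 : ℝ) < 1 by norm_num)
    have h' := hcast.eventually h
    filter_upwards [h', eventually_ge_atTop 1] with N hN hN1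
    rw [one_mul] at hN
    refine le_trans (le_abs_self _) (le_trans hN ?_)
    rw [Real.norm_of_nonneg (by positivity)]
  have E2 : ∀ᶠ N : ℕ in atTop, 4 * (Dm : ℝ) + 20 ≤ (N : ℝ) ^ (1 / 25 : ℝ) :=
    ((tendsto_rpow_atTop (show (0 : ℝ) < 1 / 25 by norm_num)).comp hcast).eventually_ge_atTop _
  have E3 : ∀ᶠ N : ℕ in atTop, 1 + 8 / c1 ≤ Real.log N :=
    (Real.tendsto_log_atTop.comp hcast).eventually_ge_atTop _
  filter_upwards [hP, E1, E2, E3, eventually_ge_atTop (2 * Dm + 8)] with N hN h1 h2 h3 h4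
  intro J hJ1 hJ2
  obtain ⟨D, Q, hDo, hdD, hDm, hQ, hQc⟩ := hN
  refine DIC.det hCOR d Dm c1 hc1 hc11 N D Q hDo hdD hDm hQ ?_ h1 h2 h3 h4 J hJ1 hJ2
  refine le_trans ?_ hQc
  have h8c : 0 < 8 / c1 := by positivity
  have hl0 : 0 < Real.log N := by linarith
  gcongr

end EHN
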