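import Pool.Agent.H2.EHN.W1

/-!
Even EHS numbers in residue classes modulo 3 and 4.
-/

set_option autoImplicit false

open Classical

namespace EHN.Even

/-- a prime `q` with prescribed residues modulo the primes of `T` -/
theorem dirichlet_crt (T : Finset ℕ) (a : ℕ → ℕ) (hT : ∀ l ∈ T, l.Prime ∧ Nat.Coprime (a l) l)
    (B : ℕ) : ∃ q, B < q ∧ q.Prime ∧ ∀ l ∈ T, q ≡ a l [MOD l] := by
  have hpp : Set.Pairwise (T : Set ℕ) (Function.onFun Nat.Coprime (fun l : ℕ => l)) := by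
    intro x hx y hy hxy
    exact (Nat.coprime_primes (hT x hx).1 (hT y hy).1).2 hxy
  obtain ⟨k, hk⟩ := Nat.chineseRemainderOfFinset a (fun l : ℕ => l) T
    (fun l hl => (hT l hl).1.ne_zero) hpp
  have hcop : Nat.Coprime k (∏ l ∈ T, l) := by
    apply Nat.Coprime.prod_right
    intro l hl
    have h1 := hk l hl
    have h2 : Nat.gcd k l = Nat.gcd (a l) l := Nat.ModEq.gcd_eq h1
    rw [Nat.coprime_iff_gcd_eq_one, h2]
    exact (hT l hl).2
  have hne : (∏ l ∈ T, l) ≠ 0 := Finset.prod_ne_zero_iff.2 fun l hl => (hT l hl).1.ne_zero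
  obtain ⟨q, hq1, hq2, hq3⟩ := Nat.forall_exists_prime_gt_and_modEq B hne hcop
  refine ⟨q, hq1, hq2, fun l hl => ?_⟩
  exact (hq3.of_dvd (Finset.dvd_prod_of_mem _ hl)).trans (hk l hl)

/-- the prime attached to `n` -/
noncomputable def pl (n : ℕ) : ℕ := Nat.nth Nat.Prime (n + 20)

theorem pl_prime (n : ℕ) : (pl n).Prime := Nat.prime_nth_prime _

theorem pl_gt (n : ℕ) : n + 22 ≤ pl n := Nat.add_two_le_nth_prime _

theorem pl_inj : Function.Injective pl := by
  intro a b h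
  have := Nat.nth_injective Nat.infinite_setOfPred_prime h
  omega

theorem choose_q (X : Finset ℕ) (t r3 r5 r7 r11 r13 : ℕ) (ht : t = 2 ∨ t = 4 ∨ t = 6)
    (h3 : r3 = 1 ∨ r3 = 2) (h5 : 1 ≤ r5 ∧ r5 < 5) (h7 : 1 ≤ r7 ∧ r7 < 7)
    (h11 : 1 ≤ r11 ∧ r11 < 11) (h13 : 1 ≤ r13 ∧ r13 < 13) :
    ∃ q, 13 < q ∧ q.Prime ∧ q % 3 = r3 ∧ q % 5 = r5 ∧ q % 7 = r7 ∧ q % 11 = r11 ∧ q % 13 = r13 ∧
      ∀ n ∈ X, ¬ (n + 1 + t * q).Prime := by
  obtain ⟨T, hT⟩ : ∃ T : Finset ℕ, T = {3, 5, 7, 11, 13} ∪ X.image pl := ⟨_, rfl⟩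
  have cop : ∀ l r : ℕ, l.Prime → 1 ≤ r → r < l → Nat.Coprime r l := fun l r hl h1 h2 =>
    ((hl.coprime_iff_not_dvd).2 fun hd => absurd (Nat.le_of_dvd h1 hd) (by omega)).symm
  have key : ∀ l ∈ T, ∃ r, Nat.Coprime r l ∧ ∀ q, q ≡ r [MOD l] →
      (l = 3 → q % 3 = r3) ∧ (l = 5 → q % 5 = r5) ∧ (l = 7 → q % 7 = r7) ∧
      (l = 11 → q % 11 = r11) ∧ (l = 13 → q % 13 = r13) ∧
      ∀ n ∈ X, pl n = l → l ∣ n + 1 + t * q := by
    intro l hl
    rw [hT, Finset.mem_union] at hl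
    rcases hl with hl | hl
    · have hsmall : ∀ n ∈ X, pl n ≠ l := by
        intro n _ h
        have h1 := pl_gt n
        simp only [Finset.mem_insert, Finset.mem_singleton] at hl
        omega
      simp only [Finset.mem_insert, Finset.mem_singleton] at hl
      rcases hl with rfl | rfl | rfl | rfl | rfl
      · refine ⟨r3, cop 3 r3 (by norm_num) (by omega) (by omega), fun q hq => ?_⟩
        have hq' : q % 3 = r3 % 3 := hq
        exact ⟨fun _ => by omega, fun h => by omega, fun h => by omega, fun h => by omega,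
          fun h => by omega, fun n hn h => absurd h (hsmall n hn)⟩
      · refine ⟨r5, cop 5 r5 (by norm_num) (by omega) (by omega), fun q hq => ?_⟩
        have hq' : q % 5 = r5 % 5 := hq
        exact ⟨fun h => by omega, fun _ => by omega, fun h => by omega, fun h => by omega,
          fun h => by omega, fun n hn h => absurd h (hsmall n hn)⟩
      · refine ⟨r7, cop 7 r7 (by norm_num) (by omega) (by omega), fun q hq => ?_⟩
        have hq' : q % 7 = r7 % 7 := hq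
        exact ⟨fun h => by omega, fun h => by omega, fun _ => by omega, fun h => by omega,
          fun h => by omega, fun n hn h => absurd h (hsmall n hn)⟩
      · refine ⟨r11, cop 11 r11 (by norm_num) (by omega) (by omega), fun q hq => ?_⟩
        have hq' : q % 11 = r11 % 11 := hq
        exact ⟨fun h => by omega, fun h => by omega, fun h => by omega, fun _ => by omega,
          fun h => by omega, fun n hn h => absurd h (hsmall n hn)⟩
      · refine ⟨r13, cop 13 r13 (by norm_num) (by omega) (by omega), fun q hq => ?_⟩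
        have hq' : q % 13 = r13 % 13 := hq
        exact ⟨fun h => by omega, fun h => by omega, fun h => by omega, fun h => by omega,
          fun _ => by omega, fun n hn h => absurd h (hsmall n hn)⟩
    · obtain ⟨n0, hn0, rfl⟩ := Finset.mem_image.1 hl
      have hp := pl_prime n0
      have hg := pl_gt n0
      haveI : Fact (pl n0).Prime := ⟨hp⟩
      have htu : ((t : ℕ) : ZMod (pl n0)) ≠ 0 := by
        rw [Ne, ZMod.natCast_eq_zero_iff]
        intro h
        have := Nat.le_of_dvd (by omega) h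
        omega
      obtain ⟨r, hr⟩ : ∃ r : ℕ, (r : ZMod (pl n0)) = -((n0 + 1 : ℕ) : ZMod (pl n0)) / (t : ℕ) :=
        ⟨_, ZMod.natCast_zmod_val _⟩
      have hr2 : ((n0 + 1 + t * r : ℕ) : ZMod (pl n0)) = 0 := by
        push_cast at hr ⊢
        rw [hr, mul_div_cancel₀ _ htu]
        ring
      refine ⟨r, ?_, fun q hq => ⟨fun h => by omega, fun h => by omega, fun h => by omega,
        fun h => by omega, fun h => by omega, ?_⟩⟩
      · apply Nat.Coprime.symm
        rw [hp.coprime_iff_not_dvd]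
        intro hd
        rw [ZMod.natCast_eq_zero_iff] at hr2
        have h1 : pl n0 ∣ n0 + 1 := (Nat.dvd_add_iff_left (hd.mul_left t)).2 hr2
        have := Nat.le_of_dvd (by omega) h1
        omega
      · intro n hn h
        have h1 := pl_inj h
        subst h1
        rw [← ZMod.natCast_eq_zero_iff]
        have h2 : (q : ZMod (pl n)) = (r : ZMod (pl n)) := (ZMod.natCast_eq_natCast_iff _ _ _).2 hq
        rw [← hr2]
        push_cast
        rw [h2]
  choose! a ha using key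
  have hprime : ∀ l ∈ T, l.Prime := by
    intro l hl
    rw [hT, Finset.mem_union] at hl
    rcases hl with hl | hl
    · simp only [Finset.mem_insert, Finset.mem_singleton] at hl
      rcases hl with rfl | rfl | rfl | rfl | rfl <;> norm_num
    · obtain ⟨n0, -, rfl⟩ := Finset.mem_image.1 hl
      exact pl_prime n0
  obtain ⟨q, hqB, hqp, hq⟩ := dirichlet_crt T a (fun l hl => ⟨hprime l hl, (ha l hl).1⟩)
    (13 + ∑ l ∈ T, l)
  have hm : ∀ l ∈ T, _ := fun l hl => (ha l hl).2 q (hq l hl)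
  have m3 : 3 ∈ T := by rw [hT]; simp
  have m5 : 5 ∈ T := by rw [hT]; simp
  have m7 : 7 ∈ T := by rw [hT]; simp
  have m11 : 11 ∈ T := by rw [hT]; simp
  have m13 : 13 ∈ T := by rw [hT]; simp
  refine ⟨q, by omega, hqp, (hm 3 m3).1 rfl, (hm 5 m5).2.1 rfl, (hm 7 m7).2.2.1 rfl,
    (hm 11 m11).2.2.2.1 rfl, (hm 13 m13).2.2.2.2.1 rfl, ?_⟩
  intro n hn hnp
  have hl : pl n ∈ T := by
    rw [hT]
    exact Finset.mem_union_right _ (Finset.mem_image_of_mem _ hn)
  have h1 := (hm _ hl).2.2.2.2.2 n hn rfl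
  have h2 := (Nat.prime_dvd_prime_iff_eq (pl_prime n) hnp).1 h1
  have h3 : pl n ≤ ∑ l ∈ T, l := Finset.single_le_sum (f := fun l => l) (fun _ _ => Nat.zero_le _) hl
  have h4 : q ≤ t * q := Nat.le_mul_of_pos_left q (by omega)
  omega

/-- divisors of `t q` -/
theorem dvd_cases (t q n : ℕ) (hq : q.Prime) (h : n ∣ t * q) :
    n ∣ t ∨ ∃ d, d ∣ t ∧ n = d * q := by
  by_cases hqn : q ∣ n
  · right
    obtain ⟨d, rfl⟩ := hqn
    refine ⟨d, ?_, mul_comm _ _⟩
    rw [mul_comm t q] at h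
    exact (Nat.mul_dvd_mul_iff_left hq.pos).1 h
  · left
    exact ((hq.coprime_iff_not_dvd.2 hqn).symm).dvd_of_dvd_mul_right h

/-- if all prime factors are `1` modulo `r` then so is the number -/
theorem all_one (r : ℕ) (N : ℕ) (hN : N ≠ 0) (h : ∀ p, p.Prime → p ∣ N → p ≡ 1 [MOD r]) :
    N ≡ 1 [MOD r] := by
  induction N using induction_on_primes with
  | zero => exact absurd rfl hN
  | one => rfl
  | prime_mul p N hp ih =>
    have h1 : N ≠ 0 := by
      rintro rfl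
      simp at hN
    have h2 := ih h1 (fun q hq hd => h q hq (hd.mul_left p))
    have h3 := h p hp (dvd_mul_right p N)
    simpa using h3.mul h2

/-- the main step -/
theorem step (X : Finset ℕ) (m p : ℕ) (hm : 4 ≤ m) (hme : Even m)
    (hi : ∀ n ∈ X, ¬ (n + 1 + m).Prime)
    (hii : ∀ n, n ∣ m → Even n → ¬ (m + n + 1).Prime)
    (hp : p.Prime) (hd : p ∣ m.factorial - 1) :
    ∃ n, 1 ≤ n ∧ Even n ∧ n + m + 1 = p ∧ EHS n ∧ n ∉ X := by
  have hf : 1 ≤ m.factorial := Nat.factorial_pos m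
  have hmp : m < p := by
    by_contra hcon
    have h1 : p ∣ m.factorial := (Nat.Prime.dvd_factorial hp).2 (by omega)
    have h2 : p ∣ m.factorial - (m.factorial - 1) := Nat.dvd_sub h1 hd
    rw [Nat.sub_sub_self hf] at h2
    exact hp.one_lt.ne' (Nat.dvd_one.1 h2)
  haveI : Fact p.Prime := ⟨hp⟩
  have hm1 : (m.factorial : ZMod p) = 1 := by
    have h1 : ((m.factorial - 1 : ℕ) : ZMod p) = 0 := (ZMod.natCast_eq_zero_iff _ _).2 hd
    rw [Nat.cast_sub hf, sub_eq_zero] at h1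
    simpa using h1
  obtain ⟨n, hn⟩ : ∃ n, n + m + 1 = p := ⟨p - 1 - m, by omega⟩
  have hw := w1_aux p m n (by omega)
  rw [hm1, one_mul, (hme.add_one).neg_one_pow] at hw
  have hpn : p ∣ n.factorial + 1 := by
    rw [← ZMod.natCast_eq_zero_iff]
    push_cast
    rw [hw]
    ring
  have hpodd : p % 2 = 1 := by
    rcases hp.eq_two_or_odd with h | h
    · omega
    · exact h
  obtain ⟨m', hm'⟩ := hme
  have hneven : Even n := by
    rw [Nat.even_iff]
    omega
  have hn1 : 1 ≤ n := by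
    by_contra hcon
    have h0 : n = 0 := by omega
    rw [h0] at hpn
    have := Nat.le_of_dvd (by norm_num) hpn
    simp at this
    omega
  refine ⟨n, hn1, hneven, hn, ⟨p, hp, hpn, ?_⟩, ?_⟩
  · intro hmod
    have h1 : n ∣ p - 1 := (Nat.modEq_iff_dvd' hp.one_lt.le).1 hmod.symm
    have h2 : p - 1 = m + n := by omega
    rw [h2] at h1
    have h3 : n ∣ m := (Nat.dvd_add_iff_left (dvd_refl n)).2 h1
    apply hii n h3 hneven
    have h4 : m + n + 1 = p := by omega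
    rw [h4]
    exact hp
  · intro hX
    apply hi n hX
    have h4 : n + 1 + m = p := by omega
    rw [h4]
    exact hp

theorem not_prime_of_dvd {l N : ℕ} (hl : 2 ≤ l) (h : l ∣ N) (hlt : l < N) : ¬ N.Prime := by
  intro hN
  rcases (Nat.dvd_prime hN).1 h with h1 | h1 <;> omega

theorem odd_q (q : ℕ) (hq : 13 < q) (hqp : q.Prime) : q % 2 = 1 := by
  rcases hqp.eq_two_or_odd with h | h
  · omega
  · exact h

theorem np (l a b q : ℕ) (hl : 2 ≤ l) (hl2 : l ≤ 13) (hq : 13 < q) (ha : 1 ≤ a)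
    (h : (a * (q % l) + b) % l = 0) (N : ℕ) (hN : N = a * q + b) : ¬ N.Prime := by
  subst hN
  have h1 : l ∣ a * q + b := by
    apply Nat.dvd_of_mod_eq_zero
    rw [Nat.add_mod, Nat.mul_mod] at h ⊢
    rwa [Nat.mod_mod] at h
  have h2 : 1 * q ≤ a * q := Nat.mul_le_mul_right q ha
  intro hp
  rcases (Nat.dvd_prime hp).1 h1 with h3 | h3 <;> omega

theorem even_dvd_two (n : ℕ) (h : n ∣ 2) (he : n % 2 = 0) : n = 2 := by
  have h2 : n ≤ 2 := Nat.le_of_dvd (by norm_num) h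
  interval_cases n <;> revert h he <;> decide

theorem even_dvd_four (n : ℕ) (h : n ∣ 4) (he : n % 2 = 0) : n = 2 ∨ n = 4 := by
  have h2 : n ≤ 4 := Nat.le_of_dvd (by norm_num) h
  interval_cases n <;> revert h he <;> decide

theorem even_dvd_six (n : ℕ) (h : n ∣ 6) (he : n % 2 = 0) : n = 2 ∨ n = 6 := by
  have h2 : n ≤ 6 := Nat.le_of_dvd (by norm_num) h
  interval_cases n <;> revert h he <;> decide

theorem even_fac (d q : ℕ) (h : Even (d * q)) (hq : q % 2 = 1) : d % 2 = 0 := by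
  rw [Nat.even_mul] at h
  rcases h with h | h
  · rwa [Nat.even_iff] at h
  · rw [Nat.even_iff] at h
    omega

theorem two (X : Finset ℕ) (r3 : ℕ) (h3 : r3 = 1 ∨ r3 = 2) : ∃ q, 13 < q ∧ q % 2 = 1 ∧
    q % 3 = r3 ∧ (∀ n ∈ X, ¬ (n + 1 + 2 * q).Prime) ∧
      ∀ n, n ∣ 2 * q → Even n → ¬ (2 * q + n + 1).Prime := by
  obtain ⟨q, hq, hqp, q3, q5, q7, -, -, hX⟩ := choose_q X 2 r3 1 5 1 1 (Or.inl rfl) h3
    ⟨by norm_num, by norm_num⟩ ⟨by norm_num, by norm_num⟩ ⟨by norm_num, by norm_num⟩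
    ⟨by norm_num, by norm_num⟩
  have hqo := odd_q q hq hqp
  refine ⟨q, hq, hqo, q3, hX, ?_⟩
  intro n hn hne
  rcases dvd_cases 2 q n hqp hn with h1 | ⟨d, h1, hd⟩
  · have h4 := even_dvd_two n h1 (Nat.even_iff.1 hne)
    exact np 5 2 3 q (by norm_num) (by norm_num) hq (by norm_num) (by rw [q5]) _ (by rw [h4])
  · rw [hd] at hne
    have h4 := even_dvd_two d h1 (even_fac d q hne hqo)
    exact np 7 4 1 q (by norm_num) (by norm_num) hq (by norm_num) (by rw [q7]) _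
      (by rw [hd, h4]; ring)

theorem four (X : Finset ℕ) : ∃ q, 13 < q ∧ q % 2 = 1 ∧ (∀ n ∈ X, ¬ (n + 1 + 4 * q).Prime) ∧
      ∀ n, n ∣ 4 * q → Even n → ¬ (4 * q + n + 1).Prime := by
  obtain ⟨q, hq, hqp, q3, q5, q7, q11, q13, hX⟩ := choose_q X 4 1 3 4 9 8 (by norm_num)
    (Or.inl rfl) ⟨by norm_num, by norm_num⟩ ⟨by norm_num, by norm_num⟩ ⟨by norm_num, by norm_num⟩
    ⟨by norm_num, by norm_num⟩
  have hqo := odd_q q hq hqp
  refine ⟨q, hq, hqo, hX, ?_⟩
  intro n hn hne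
  rcases dvd_cases 4 q n hqp hn with h1 | ⟨d, h1, hd⟩
  · rcases even_dvd_four n h1 (Nat.even_iff.1 hne) with h4 | h4
    · exact np 5 4 3 q (by norm_num) (by norm_num) hq (by norm_num) (by rw [q5]) _ (by rw [h4])
    · exact np 7 4 5 q (by norm_num) (by norm_num) hq (by norm_num) (by rw [q7]) _ (by rw [h4])
  · rw [hd] at hne
    rcases even_dvd_four d h1 (even_fac d q hne hqo) with h4 | h4
    · exact np 11 6 1 q (by norm_num) (by norm_num) hq (by norm_num) (by rw [q11]) _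
        (by rw [hd, h4]; ring)
    · exact np 13 8 1 q (by norm_num) (by norm_num) hq (by norm_num) (by rw [q13]) _
        (by rw [hd, h4]; ring)

theorem six (X : Finset ℕ) : ∃ q, 13 < q ∧ q % 2 = 1 ∧ (∀ n ∈ X, ¬ (n + 1 + 6 * q).Prime) ∧
      ∀ n, n ∣ 6 * q → Even n → ¬ (6 * q + n + 1).Prime := by
  obtain ⟨q, hq, hqp, q3, q5, q7, q11, q13, hX⟩ := choose_q X 6 1 3 6 10 1 (by norm_num)
    (Or.inl rfl) ⟨by norm_num, by norm_num⟩ ⟨by norm_num, by norm_num⟩ ⟨by norm_num, by norm_num⟩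
    ⟨by norm_num, by norm_num⟩
  have hqo := odd_q q hq hqp
  refine ⟨q, hq, hqo, hX, ?_⟩
  intro n hn hne
  rcases dvd_cases 6 q n hqp hn with h1 | ⟨d, h1, hd⟩
  · rcases even_dvd_six n h1 (Nat.even_iff.1 hne) with h4 | h4
    · exact np 3 6 3 q (by norm_num) (by norm_num) hq (by norm_num) (by rw [q3]) _ (by rw [h4])
    · exact np 5 6 7 q (by norm_num) (by norm_num) hq (by norm_num) (by rw [q5]) _ (by rw [h4])
  · rw [hd] at hne
    rcases even_dvd_six d h1 (even_fac d q hne hqo) with h4 | h4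
    · exact np 7 8 1 q (by norm_num) (by norm_num) hq (by norm_num) (by rw [q7]) _
        (by rw [hd, h4]; ring)
    · exact np 11 12 1 q (by norm_num) (by norm_num) hq (by norm_num) (by rw [q11]) _
        (by rw [hd, h4]; ring)

/-- suitable `m` in each class -/
theorem choose_m (X : Finset ℕ) (r c : ℕ) (h : r = 3 ∨ (r = 4 ∧ Even c)) :
    ∃ m, 4 ≤ m ∧ Even m ∧ m % r = c % r ∧ (∀ n ∈ X, ¬ (n + 1 + m).Prime) ∧
      ∀ n, n ∣ m → Even n → ¬ (m + n + 1).Prime := by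
  rcases h with rfl | ⟨rfl, hc⟩
  · have hc3 : c % 3 = 0 ∨ c % 3 = 1 ∨ c % 3 = 2 := by omega
    rcases hc3 with h0 | h0 | h0
    · obtain ⟨q, h1, -, h2, h3⟩ := six X
      refine ⟨6 * q, ?_, ⟨3 * q, ?_⟩, ?_, h2, h3⟩ <;> clear h2 h3 <;> omega
    · obtain ⟨q, h1, -, h4, h2, h3⟩ := two X 2 (Or.inr rfl)
      refine ⟨2 * q, ?_, ⟨q, ?_⟩, ?_, h2, h3⟩ <;> clear h2 h3 <;> omega
    · obtain ⟨q, h1, -, h4, h2, h3⟩ := two X 1 (Or.inl rfl)
      refine ⟨2 * q, ?_, ⟨q, ?_⟩, ?_, h2, h3⟩ <;> clear h2 h3 <;> omega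
  · rw [Nat.even_iff] at hc
    have hc4 : c % 4 = 0 ∨ c % 4 = 2 := by omega
    rcases hc4 with h0 | h0
    · obtain ⟨q, h1, -, h2, h3⟩ := four X
      refine ⟨4 * q, ?_, ⟨2 * q, ?_⟩, ?_, h2, h3⟩ <;> clear h2 h3 <;> omega
    · obtain ⟨q, h1, hqo, h4, h2, h3⟩ := two X 1 (Or.inl rfl)
      refine ⟨2 * q, ?_, ⟨q, ?_⟩, ?_, h2, h3⟩ <;> clear h2 h3 <;> omega

/-- infinitely many even EHS numbers in every class modulo `3` and in the classes `0, 2` modulo
`4` -/
theorem main (r a : ℕ) (h : r = 3 ∨ (r = 4 ∧ Even a)) :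
    {n : ℕ | 1 ≤ n ∧ Even n ∧ n ≡ a [MOD r] ∧ EHS n}.Infinite := by
  intro hfin
  obtain ⟨X, hX⟩ : ∃ X : Finset ℕ, X = hfin.toFinset := ⟨_, rfl⟩
  obtain ⟨c, hc⟩ : ∃ c, c = (r - 1) * (a + 2) := ⟨_, rfl⟩
  have hcr : c + a + 2 ≡ 0 [MOD r] := by
    have h1 : c + a + 2 = r * (a + 2) := by
      rcases h with h | ⟨h, -⟩ <;> (rw [hc, h]; ring)
    rw [h1]
    exact (Nat.modEq_zero_iff_dvd).2 (dvd_mul_right _ _)
  have hcc : r = 3 ∨ (r = 4 ∧ Even c) := by
    rcases h with h | ⟨h, h'⟩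
    · exact Or.inl h
    · refine Or.inr ⟨h, ?_⟩
      rw [hc]
      exact (h'.add (by norm_num)).mul_left _
  obtain ⟨m, hm, hme, hmc, hi, hii⟩ := choose_m X r c hcc
  have hdvd : r ∣ m.factorial := by
    apply Nat.dvd_factorial <;> omega
  have hf : 1 ≤ m.factorial := Nat.factorial_pos m
  have hf4 : 4 ≤ m.factorial := le_trans hm (Nat.self_le_factorial m)
  have hex : ∃ p, p.Prime ∧ p ∣ m.factorial - 1 ∧ ¬ p ≡ 1 [MOD r] := by
    by_contra hcon
    push Not at hcon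
    have h1 := all_one r (m.factorial - 1) (by omega) hcon
    have h2 : m.factorial - 1 + 1 ≡ 1 + 1 [MOD r] := h1.add_right 1
    rw [Nat.sub_add_cancel hf] at h2
    have h3 : 0 ≡ 2 [MOD r] := ((Nat.modEq_zero_iff_dvd).2 hdvd).symm.trans h2
    unfold Nat.ModEq at h3
    rcases h with h | ⟨h, -⟩ <;> (rw [h] at h3; norm_num at h3)
  obtain ⟨p, hp, hpd, hpr⟩ := hex
  obtain ⟨n, hn1, hne, hnp, hE, hnX⟩ := step X m p hm hme hi hii hp hpd
  apply hnX
  rw [hX, Set.Finite.mem_toFinset]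
  refine ⟨hn1, hne, ?_, hE⟩
  -- p ≡ -1
  have hpr' : p % r = r - 1 := by
    have hcop : ¬ r = 4 ∨ p % 2 = 1 := by
      right
      rcases hp.eq_two_or_odd with h | h
      · omega
      · exact h
    have h3 : r = 3 → p % 3 ≠ 0 := by
      intro hr h0
      have h1 : 3 ∣ p := Nat.dvd_of_mod_eq_zero h0
      have h2 := (Nat.prime_dvd_prime_iff_eq Nat.prime_three hp).1 h1
      omega
    unfold Nat.ModEq at hpr
    rcases h with h | ⟨h, -⟩
    · subst h
      have := h3 rfl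
      omega
    · subst h
      omega
  unfold Nat.ModEq at hcr ⊢
  rcases h with h | ⟨h, -⟩
  · subst h
    omega
  · subst h
    omega

end EHN.Even
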