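import Pool.Agent.H2.EHN.W1
import Pool.Agent.H18.EHN.W2
import Pool.Agent.H34.EHN.FAC
import Pool.Agent.H70.EHN.BAD
import Pool.Agent.H22.EHN.CNT
import Pool.Agent.H3.EHN.BLK
import Pool.Agent.H67.EHN.PIG
import Pool.Agent.H78.EHN.UNQ
import Pool.Agent.H72.EHN.CL1
import Pool.Agent.H36.EHN.CL2
import Pool.Agent.H80.EHN.EXB
import Pool.Agent.H14.EHN.REL
import Pool.Agent.H55.EHN.COR
import Pool.Agent.H23.EHN.PRM
import Pool.Agent.H44.EHN.DIC
import Pool.Agent.H62.EHN.LIM
import Pool.Agent.H93.EHN.SUP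

/-!
Assembly of project EHN: the two final rows without hypotheses.
-/

set_option autoImplicit false

namespace EHN

theorem dic_final : DICStmt :=
  dic_thm (COR_thm FAC_thm (bad_thm (W2_thm w1_thm)) cnt_thm blk_thm
    (rel_thm pig_thm unq_thm cl1_thm cl2_thm exb_thm)) PRM_thm

theorem lim_final : LIMStmt := lim_thm dic_final

theorem sup_final : SUPStmt := sup_thm dic_final

end EHN
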